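import Mathlib

open MeasureTheory ProbabilityTheory
open scoped ENNReal NNReal

namespace Pool.Agent.Seat79.ZPerm

/-- The standard complex Gaussian law: real and imaginary parts are independent with
law `N(0, 1/2)`. -/
noncomputable def cgauss : Measure ℂ :=
  ((gaussianReal 0 (1 / 2)).prod (gaussianReal 0 (1 / 2))).map
    (fun q : ℝ × ℝ => (⟨q.1, q.2⟩ : ℂ))

lemma measurable_mk : Measurable (fun q : ℝ × ℝ => (⟨q.1, q.2⟩ : ℂ)) :=
  Complex.measurableEquivRealProd.symm.measurable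

instance : IsProbabilityMeasure cgauss :=
  Measure.isProbabilityMeasure_map measurable_mk.aemeasurable

lemma lintegral_cgauss (f : ℂ → ℝ≥0∞) (hf : Measurable f) :
    ∫⁻ w, f w ∂cgauss = ∫⁻ w : ℂ, f w * ENNReal.ofReal (Real.pi⁻¹ * Real.exp (-‖w‖ ^ 2)) := by
  have hv : (1 / 2 : ℝ≥0) ≠ 0 := by norm_num
  unfold cgauss
  rw [lintegral_map hf measurable_mk, gaussianReal_of_var_ne_zero _ hv,
    prod_withDensity (measurable_gaussianPDF _ _) (measurable_gaussianPDF _ _),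
    lintegral_withDensity_eq_lintegral_mul]
  rotate_left
  · exact ((measurable_gaussianPDF _ _).comp measurable_fst).mul
      ((measurable_gaussianPDF _ _).comp measurable_snd)
  · exact hf.comp measurable_mk
  have h := Complex.volume_preserving_equiv_real_prod.symm.lintegral_comp
    (f := fun w : ℂ => f w * ENNReal.ofReal (Real.pi⁻¹ * Real.exp (-‖w‖ ^ 2))) (by fun_prop)
  rw [← h]
  refine lintegral_congr fun q => ?_
  simp only [Pi.mul_apply]
  have h1 : (Complex.measurableEquivRealProd.symm q) = (⟨q.1, q.2⟩ : ℂ) := rfl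
  rw [h1, mul_comm]
  congr 1
  rw [gaussianPDF, gaussianPDF, ← ENNReal.ofReal_mul (gaussianPDFReal_nonneg _ _ _)]
  congr 1
  rw [gaussianPDFReal, gaussianPDFReal]
  have h2 : ‖(⟨q.1, q.2⟩ : ℂ)‖ ^ 2 = q.1 ^ 2 + q.2 ^ 2 := by
    rw [← Complex.normSq_eq_norm_sq, Complex.normSq_mk]; ring
  rw [h2]
  have h3 : (2 * Real.pi * ((1 / 2 : ℝ≥0) : ℝ)) = Real.pi := by push_cast; ring
  rw [h3]
  have h4 : (√Real.pi)⁻¹ * (√Real.pi)⁻¹ = Real.pi⁻¹ := by
    rw [← mul_inv, Real.mul_self_sqrt Real.pi_pos.le]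
  calc (√Real.pi)⁻¹ * Real.exp (-(q.1 - 0) ^ 2 / (2 * ((1 / 2 : ℝ≥0) : ℝ))) *
        ((√Real.pi)⁻¹ * Real.exp (-(q.2 - 0) ^ 2 / (2 * ((1 / 2 : ℝ≥0) : ℝ))))
      = ((√Real.pi)⁻¹ * (√Real.pi)⁻¹) * (Real.exp (-(q.1 - 0) ^ 2 / (2 * ((1 / 2 : ℝ≥0) : ℝ))) *
          Real.exp (-(q.2 - 0) ^ 2 / (2 * ((1 / 2 : ℝ≥0) : ℝ)))) := by ring
    _ = Real.pi⁻¹ * Real.exp (-(q.1 ^ 2 + q.2 ^ 2)) := by
        rw [h4, ← Real.exp_add]
        congr 2
        push_cast
        ring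

/-- Negative moments of the modulus. -/
lemma negMoment (s : ℝ) (h0 : 0 < s) (h1 : s < 1) :
    ∫⁻ w, ENNReal.ofReal ((‖w‖ ^ 2) ^ (-s)) ∂cgauss = ENNReal.ofReal (Real.Gamma (1 - s)) := by
  rw [lintegral_cgauss _ (by fun_prop)]
  have h := Complex.integral_rpow_mul_exp_neg_rpow (p := 2) (q := -2 * s) (by norm_num)
    (by linarith)
  have hpos : 0 < Real.Gamma (1 - s) := Real.Gamma_pos_of_pos (by linarith)
  have h2 : ((-2 * s + 2) / 2 : ℝ) = 1 - s := by ring
  rw [h2] at h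
  have hint : Integrable (fun x : ℂ => ‖x‖ ^ (-2 * s) * Real.exp (-‖x‖ ^ (2:ℝ))) := by
    by_contra hni
    rw [integral_undef hni] at h
    have : 0 < 2 * Real.pi / 2 * Real.Gamma (1 - s) := by positivity
    linarith
  have h3 : ∀ w : ℂ, ENNReal.ofReal ((‖w‖ ^ 2) ^ (-s)) *
      ENNReal.ofReal (Real.pi⁻¹ * Real.exp (-‖w‖ ^ 2)) =
      ENNReal.ofReal (Real.pi⁻¹ * (‖w‖ ^ (-2 * s) * Real.exp (-‖w‖ ^ (2:ℝ)))) := by
    intro w
    rw [← ENNReal.ofReal_mul (by positivity)]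
    congr 1
    have : (‖w‖ ^ 2) ^ (-s) = ‖w‖ ^ (-2 * s) := by
      rw [← Real.rpow_natCast, ← Real.rpow_mul (norm_nonneg _)]
      congr 1
      push_cast
      ring
    rw [this]
    have h5 : ‖w‖ ^ (2:ℝ) = ‖w‖ ^ 2 := by
      rw [← Real.rpow_natCast]; norm_num
    rw [h5]
    ring
  simp_rw [h3]
  rw [← ofReal_integral_eq_lintegral_ofReal (hint.const_mul _)
    (Filter.Eventually.of_forall fun w => by positivity), integral_const_mul, h]
  congr 1
  field_simp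

lemma charFun_cgauss (t : ℂ) : charFun cgauss t = Complex.exp (-(‖t‖ ^ 2 / 4 : ℝ)) := by
  unfold charFun cgauss
  rw [integral_map measurable_mk.aemeasurable (by fun_prop)]
  have h1 : ∀ q : ℝ × ℝ, Complex.exp (((inner ℝ (⟨q.1, q.2⟩ : ℂ) t : ℝ) : ℂ) * Complex.I) =
      Complex.exp (((inner ℝ q.1 t.re : ℝ) : ℂ) * Complex.I) *
        Complex.exp (((inner ℝ q.2 t.im : ℝ) : ℂ) * Complex.I) := by
    intro q
    rw [← Complex.exp_add, ← add_mul]
    congr 2
    rw [← Complex.ofReal_add]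
    congr 1
    simp [Complex.inner, mul_comm]
  simp_rw [h1]
  rw [integral_prod_mul (fun x : ℝ => Complex.exp (((inner ℝ x t.re : ℝ) : ℂ) * Complex.I))
    (fun x : ℝ => Complex.exp (((inner ℝ x t.im : ℝ) : ℂ) * Complex.I))]
  have h2 := charFun_gaussianReal (μ := 0) (v := 1 / 2) t.re
  have h3 := charFun_gaussianReal (μ := 0) (v := 1 / 2) t.im
  unfold charFun at h2 h3
  rw [h2, h3, ← Complex.exp_add]
  congr 1
  have h4 : ‖t‖ ^ 2 = t.re ^ 2 + t.im ^ 2 := by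
    rw [← Complex.normSq_eq_norm_sq, Complex.normSq_apply]; ring
  rw [h4]
  push_cast
  ring

/-- The law of a normalised linear form of independent standard complex Gaussians. -/
lemma map_linear {n : ℕ} (a : Fin n → ℂ) (ha : ∑ j, ‖a j‖ ^ 2 = 1) :
    (Measure.pi (fun _ : Fin n => cgauss)).map (fun x => ∑ j, a j * x j) = cgauss := by
  have hm : Measurable (fun x : Fin n → ℂ => ∑ j, a j * x j) := by fun_prop
  have : IsProbabilityMeasure ((Measure.pi (fun _ : Fin n => cgauss)).map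
      (fun x => ∑ j, a j * x j)) := Measure.isProbabilityMeasure_map hm.aemeasurable
  refine Measure.ext_of_charFun ?_
  funext t
  rw [charFun_cgauss]
  unfold charFun
  rw [integral_map hm.aemeasurable (by fun_prop)]
  have h1 : ∀ x : Fin n → ℂ,
      Complex.exp (((inner ℝ (∑ j, a j * x j) t : ℝ) : ℂ) * Complex.I) =
      ∏ j, Complex.exp (((inner ℝ (x j) (starRingEnd ℂ (a j) * t) : ℝ) : ℂ) * Complex.I) := by
    intro x
    rw [← Complex.exp_sum, ← Finset.sum_mul, ← Complex.ofReal_sum, sum_inner]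
    congr 3
    refine Finset.sum_congr rfl fun j _ => ?_
    simp [Complex.inner]
    ring
  simp_rw [h1]
  rw [integral_fintype_prod_eq_prod (𝕜 := ℂ)
    (fun j (y : ℂ) => Complex.exp (((inner ℝ y (starRingEnd ℂ (a j) * t) : ℝ) : ℂ) * Complex.I))]
  have h2 : ∀ j, ∫ y, Complex.exp (((inner ℝ y (starRingEnd ℂ (a j) * t) : ℝ) : ℂ) * Complex.I)
      ∂cgauss = Complex.exp (-(‖a j‖ ^ 2 * (‖t‖ ^ 2 / 4) : ℝ)) := by
    intro j
    have := charFun_cgauss (starRingEnd ℂ (a j) * t)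
    unfold charFun at this
    rw [this]
    congr 2
    rw [norm_mul, RCLike.norm_conj]
    push_cast
    ring
  simp_rw [h2]
  rw [← Complex.exp_sum]
  congr 1
  rw [Finset.sum_neg_distrib, ← Complex.ofReal_sum, ← Finset.sum_mul, ha, one_mul]

end Pool.Agent.Seat79.ZPerm
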