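import Pool.Agent.Seat79.ZPer

open MeasureTheory ProbabilityTheory Finset
open scoped ENNReal NNReal

namespace Pool.Agent.Seat79.ZPerm

/-- Jensen's inequality for `t ^ (-s)` -/
lemma jensen_neg {ι : Type*} (A : Finset ι) (w t : ι → ℝ) (hw : ∀ i ∈ A, 0 ≤ w i)
    (hw1 : ∑ i ∈ A, w i = 1) (ht : ∀ i ∈ A, 0 < t i) (s : ℝ) (hs : 0 < s) :
    (∑ i ∈ A, w i * t i) ^ (-s) ≤ ∑ i ∈ A, w i * (t i) ^ (-s) := by
  have h1 := Real.geom_mean_le_arith_mean_weighted A w t hw hw1 (fun i hi => (ht i hi).le)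
  have h2 := Real.geom_mean_le_arith_mean_weighted A w (fun i => (t i) ^ (-s)) hw hw1
    (fun i hi => Real.rpow_nonneg (ht i hi).le _)
  refine le_trans ?_ h2
  have h3 : ∏ i ∈ A, ((t i) ^ (-s)) ^ (w i) = (∏ i ∈ A, (t i) ^ (w i)) ^ (-s) := by
    rw [← Real.finsetProd_rpow _ _ (fun i hi => Real.rpow_nonneg (ht i hi).le _)]
    refine prod_congr rfl fun i hi => ?_
    rw [← Real.rpow_mul (ht i hi).le, ← Real.rpow_mul (ht i hi).le, mul_comm]
  rw [h3]
  have hpos : 0 < ∏ i ∈ A, (t i) ^ (w i) := prod_pos fun i hi => Real.rpow_pos_of_pos (ht i hi) _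
  exact Real.rpow_le_rpow_of_nonpos hpos h1 (by linarith)

/-- negative power, with value `∞` at `0` -/
noncomputable def np (s : ℝ) (x : ℝ) : ℝ≥0∞ := ((ENNReal.ofReal x) ^ s)⁻¹

lemma np_of_pos {s x : ℝ} (hx : 0 < x) : np s x = ENNReal.ofReal (x ^ (-s)) := by
  unfold np
  rw [← ENNReal.rpow_neg, ENNReal.ofReal_rpow_of_pos hx]

lemma np_of_nonpos {s x : ℝ} (hs : 0 < s) (hx : x ≤ 0) : np s x = ⊤ := by
  unfold np
  rw [ENNReal.ofReal_of_nonpos hx, ENNReal.zero_rpow_of_pos hs, ENNReal.inv_zero]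

lemma measurable_np (s : ℝ) : Measurable (np s) := by
  unfold np
  fun_prop

lemma jensen_np {ι : Type*} (A : Finset ι) (w t : ι → ℝ) (hw : ∀ i ∈ A, 0 < w i)
    (hw1 : ∑ i ∈ A, w i = 1) (ht : ∀ i ∈ A, 0 ≤ t i) (s : ℝ) (hs : 0 < s) :
    np s (∑ i ∈ A, w i * t i) ≤ ∑ i ∈ A, ENNReal.ofReal (w i) * np s (t i) := by
  by_cases h : ∀ i ∈ A, 0 < t i
  · have hA : A.Nonempty := by
      rw [nonempty_iff_ne_empty]; rintro rfl; simp at hw1
    rw [np_of_pos (sum_pos (fun i hi => mul_pos (hw i hi) (h i hi)) hA)]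
    have h2 : ∑ i ∈ A, ENNReal.ofReal (w i) * np s (t i) =
        ENNReal.ofReal (∑ i ∈ A, w i * (t i) ^ (-s)) := by
      rw [ENNReal.ofReal_sum_of_nonneg]
      · refine sum_congr rfl fun i hi => ?_
        rw [np_of_pos (h i hi), ENNReal.ofReal_mul (hw i hi).le]
      · intro i hi
        have := hw i hi
        have := Real.rpow_nonneg (ht i hi) (-s)
        positivity
    rw [h2]
    exact ENNReal.ofReal_le_ofReal (jensen_neg A w t (fun i hi => (hw i hi).le) hw1 h s hs)
  · push Not at h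
    obtain ⟨i, hi, hi2⟩ := h
    have : ∑ i ∈ A, ENNReal.ofReal (w i) * np s (t i) = ⊤ := by
      rw [ENNReal.sum_eq_top]
      refine ⟨i, hi, ?_⟩
      rw [np_of_nonpos hs hi2, ENNReal.mul_top]
      simpa using hw i hi
    rw [this]
    exact le_top

lemma np_mul {s a x : ℝ} (ha : 0 < a) (hs : 0 < s) (hx : 0 ≤ x) :
    np s (a * x) = ENNReal.ofReal (a ^ (-s)) * np s x := by
  rcases hx.eq_or_lt with h | h
  · rw [← h, mul_zero, np_of_nonpos hs le_rfl, ENNReal.mul_top]
    simpa using Real.rpow_pos_of_pos ha _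
  · rw [np_of_pos (mul_pos ha h), np_of_pos h, Real.mul_rpow ha.le h.le,
      ENNReal.ofReal_mul (Real.rpow_nonneg ha.le _)]

/-- the negative moments of a linear form -/
lemma linform {n : ℕ} (a : Fin n → ℂ) (s : ℝ) (h0 : 0 < s) (h1 : s < 1)
    (ha : ∑ j, ‖a j‖ ^ 2 = 1) :
    ∫⁻ x, np s (‖∑ j, a j * x j‖ ^ 2) ∂(Measure.pi (fun _ : Fin n => cgauss)) =
      ENNReal.ofReal (Real.Gamma (1 - s)) := by
  rw [← negMoment s h0 h1]
  have h := map_linear a ha
  have hm : Measurable (fun x : Fin n → ℂ => ∑ j, a j * x j) := by fun_prop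
  have h2 : ∫⁻ x, np s (‖∑ j, a j * x j‖ ^ 2) ∂(Measure.pi (fun _ : Fin n => cgauss)) =
      ∫⁻ w, np s (‖w‖ ^ 2) ∂cgauss := by
    have h7 : Measurable fun w : ℂ => np s (‖w‖ ^ 2) :=
      (measurable_np s).comp (measurable_norm.pow_const 2)
    conv_rhs => rw [← h]
    rw [lintegral_map h7 hm]
  rw [h2]
  refine lintegral_congr_ae ?_
  have h3 : ∀ᵐ w ∂cgauss, w ≠ 0 := by
    rw [ae_iff]
    have : {w : ℂ | ¬ w ≠ 0} = {0} := by ext; simp
    rw [this]
    have h4 := lintegral_cgauss (Set.indicator {0} 1)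
      ((measurable_indicator_const_iff (1 : ℝ≥0∞)).2 (measurableSet_singleton 0))
    rw [lintegral_indicator_one (measurableSet_singleton 0)] at h4
    rw [h4]
    rw [lintegral_eq_zero_iff']
    · have : ∀ᵐ w : ℂ, w ≠ 0 := by
        rw [ae_iff]
        simp
      filter_upwards [this] with w hw
      simp [hw]
    · exact ((measurable_indicator_const_iff (1 : ℝ≥0∞)).2
        (measurableSet_singleton 0)).aemeasurable.mul (by fun_prop)
  filter_upwards [h3] with w hw
  rw [np_of_pos (by positivity)]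

/-- One row: the negative moment of the sum of the squared moduli of linear forms. -/
lemma row_step {ι : Type*} [Fintype ι] {n : ℕ} (a : ι → Fin n → ℂ) (s : ℝ) (h0 : 0 < s)
    (h1 : s < 1) :
    ∫⁻ x, np s (∑ i, ‖∑ j, a i j * x j‖ ^ 2) ∂(Measure.pi (fun _ : Fin n => cgauss)) ≤
      ENNReal.ofReal (Real.Gamma (1 - s)) * np s (∑ i, ∑ j, ‖a i j‖ ^ 2) := by
  classical
  have hG : 0 < Real.Gamma (1 - s) := Real.Gamma_pos_of_pos (by linarith)
  set T : ℝ := ∑ i, ∑ j, ‖a i j‖ ^ 2 with hT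
  have hT0 : 0 ≤ T := sum_nonneg fun _ _ => sum_nonneg fun _ _ => by positivity
  rcases hT0.eq_or_lt with hT1 | hT1
  · rw [← hT1, np_of_nonpos h0 le_rfl, ENNReal.mul_top]
    · exact le_top
    · simpa using hG
  set c : ι → ℝ := fun i => ∑ j, ‖a i j‖ ^ 2 with hc
  have hc0 : ∀ i, 0 ≤ c i := fun i => sum_nonneg fun _ _ => by positivity
  set A : Finset ι := univ.filter fun i => 0 < c i with hA
  have hAc : ∀ i ∈ A, 0 < c i := fun i hi => (mem_filter.1 hi).2
  have hcT : ∑ i ∈ A, c i = T := by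
    rw [hT, hA, sum_filter]
    refine sum_congr rfl fun i _ => ?_
    by_cases h : 0 < c i
    · rw [if_pos h]
    · rw [if_neg h]
      exact le_antisymm (hc0 i) (not_lt.1 h)
  have hw1 : ∑ i ∈ A, c i / T = 1 := by
    rw [← sum_div, hcT, div_self hT1.ne']
  have key : ∀ x : Fin n → ℂ, np s (∑ i, ‖∑ j, a i j * x j‖ ^ 2) ≤
      ∑ i ∈ A, ENNReal.ofReal (c i / T) * (ENNReal.ofReal (T ^ (-s)) *
        np s (‖∑ j, (a i j / (Real.sqrt (c i) : ℂ)) * x j‖ ^ 2)) := by
    intro x
    have e1 : ∑ i, ‖∑ j, a i j * x j‖ ^ 2 = ∑ i ∈ A, (c i / T) *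
        (T * ‖∑ j, (a i j / (Real.sqrt (c i) : ℂ)) * x j‖ ^ 2) := by
      rw [hA, sum_filter]
      refine sum_congr rfl fun i _ => ?_
      by_cases h : 0 < c i
      · rw [if_pos h]
        have e2 : ∑ j, (a i j / (Real.sqrt (c i) : ℂ)) * x j =
            (∑ j, a i j * x j) / (Real.sqrt (c i) : ℂ) := by
          rw [sum_div]
          refine sum_congr rfl fun j _ => ?_
          ring
        rw [e2, norm_div, Complex.norm_real, Real.norm_eq_abs, abs_of_nonneg (Real.sqrt_nonneg _),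
          div_pow, Real.sq_sqrt h.le]
        field_simp
      · rw [if_neg h]
        have h2 : c i = 0 := le_antisymm (not_lt.1 h) (hc0 i)
        have h3 : ∀ j, a i j = 0 := by
          intro j
          have := (sum_eq_zero_iff_of_nonneg (fun j _ => by positivity)).1 h2 j (mem_univ j)
          simpa using this
        simp [h3]
    rw [e1]
    refine (jensen_np A (fun i => c i / T) _ (fun i hi => div_pos (hAc i hi) hT1) hw1
      (fun i _ => by positivity) s h0).trans ?_
    refine sum_le_sum fun i _ => ?_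
    rw [np_mul hT1 h0 (by positivity)]
  refine (lintegral_mono key).trans ?_
  rw [lintegral_finsetSum]
  · have e3 : ∀ i ∈ A, ∫⁻ x, ENNReal.ofReal (c i / T) * (ENNReal.ofReal (T ^ (-s)) *
        np s (‖∑ j, (a i j / (Real.sqrt (c i) : ℂ)) * x j‖ ^ 2))
          ∂(Measure.pi (fun _ : Fin n => cgauss)) =
        ENNReal.ofReal (c i / T) * (ENNReal.ofReal (T ^ (-s)) *
          ENNReal.ofReal (Real.Gamma (1 - s))) := by
      intro i hi
      have hm : Measurable fun x : Fin n → ℂ =>
          np s (‖∑ j, (a i j / (Real.sqrt (c i) : ℂ)) * x j‖ ^ 2) :=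
        (measurable_np s).comp (by fun_prop)
      rw [lintegral_const_mul _ (hm.const_mul _), lintegral_const_mul _ hm, linform _ s h0 h1]
      have : ∀ j, ‖a i j / (Real.sqrt (c i) : ℂ)‖ ^ 2 = ‖a i j‖ ^ 2 / c i := by
        intro j
        rw [norm_div, Complex.norm_real, Real.norm_eq_abs, abs_of_nonneg (Real.sqrt_nonneg _),
          div_pow, Real.sq_sqrt (hc0 i)]
      simp_rw [this]
      rw [← sum_div]
      exact div_self (hAc i hi).ne'
    rw [sum_congr rfl e3, ← sum_mul, ← ENNReal.ofReal_sum_of_nonneg, hw1, ENNReal.ofReal_one,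
      one_mul, np_of_pos hT1, mul_comm]
    intro i hi
    exact div_nonneg (hc0 i) hT1.le
  · intro i _
    exact (((measurable_np s).comp (by fun_prop)).const_mul _).const_mul _

lemma continuous_P (z : ℂ) {k n : ℕ} (S : Finset (Fin n)) :
    Continuous (fun X : Fin k → Fin n → ℂ => P z X S) := by
  classical
  unfold P
  refine continuous_finsetSum _ fun f _ => ?_
  by_cases h : Function.Injective f ∧ univ.image f = S
  · simp only [if_pos h]
    fun_prop
  · simp only [if_neg h]
    fun_prop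

lemma continuous_V (z : ℂ) {k n : ℕ} : Continuous (fun X : Fin k → Fin n → ℂ => V z X) := by
  unfold V
  exact continuous_finsetSum _ fun S _ => ((continuous_P z S).norm.pow 2)

/-- the law of `k` rows -/
noncomputable abbrev rows (k n : ℕ) : Measure (Fin k → Fin n → ℂ) :=
  Measure.pi fun _ : Fin k => Measure.pi fun _ : Fin n => cgauss

lemma moment (z : ℂ) (hz : ‖z‖ = 1) (n : ℕ) (s : ℝ) (h0 : 0 < s) (h1 : s < 1) (k : ℕ)
    (hk : k ≤ n) :
    ∫⁻ X, np s (V z X) ∂(rows k n) ≤
      ∏ i ∈ range k, (ENNReal.ofReal (Real.Gamma (1 - s)) *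
        ENNReal.ofReal (((n : ℝ) - i) ^ (-s))) := by
  induction k with
  | zero =>
    simp only [V_zero, range_zero, prod_empty, lintegral_const, measure_univ, mul_one]
    rw [np_of_pos one_pos]
    simp
  | succ k ih =>
    have ih' := ih (by omega)
    have hmp := (measurePreserving_piFinSuccAbove
      (fun _ : Fin (k + 1) => Measure.pi fun _ : Fin n => cgauss) 0).symm
    have hmeas : Measurable fun X : Fin (k + 1) → Fin n → ℂ => np s (V z X) :=
      (measurable_np s).comp (continuous_V z).measurable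
    rw [rows, ← hmp.lintegral_comp hmeas]
    rw [lintegral_prod_symm' (fun a => np s (V z ((MeasurableEquiv.piFinSuccAbove
      (fun _ : Fin (k + 1) => Fin n → ℂ) 0).symm a))) (hmeas.comp
      (MeasurableEquiv.piFinSuccAbove (fun _ : Fin (k + 1) => Fin n → ℂ) 0).symm.measurable)]
    rw [prod_range_succ]
    have hnk : (0 : ℝ) < (n : ℝ) - k := by
      have : (k : ℝ) < n := by exact_mod_cast (by omega : k < n)
      linarith
    have key : ∀ X' : Fin k → Fin n → ℂ,
        ∫⁻ x, np s (V z ((MeasurableEquiv.piFinSuccAbove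
          (fun _ : Fin (k + 1) => Fin n → ℂ) 0).symm (x, X')))
            ∂(Measure.pi fun _ : Fin n => cgauss) ≤
          (ENNReal.ofReal (Real.Gamma (1 - s)) * ENNReal.ofReal (((n : ℝ) - k) ^ (-s))) *
            np s (V z X') := by
      intro X'
      have e1 : ∀ x : Fin n → ℂ, V z ((MeasurableEquiv.piFinSuccAbove
          (fun _ : Fin (k + 1) => Fin n → ℂ) 0).symm (x, X')) =
          ∑ S : Finset (Fin n), ‖∑ j, (if j ∈ S then
            z ^ (S.filter fun s => s < j).card * P z X' (S.erase j) else 0) * x j‖ ^ 2 := by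
        intro x
        unfold V
        refine sum_congr rfl fun S _ => ?_
        rw [P_succ]
        congr 2
        simp only [ite_mul, zero_mul]
        rw [← sum_filter]
        rw [filter_mem_eq_inter, univ_inter]
        refine sum_congr rfl fun j _ => ?_
        have e2 : (MeasurableEquiv.piFinSuccAbove
          (fun _ : Fin (k + 1) => Fin n → ℂ) 0).symm (x, X') 0 = x := by
          simp [MeasurableEquiv.piFinSuccAbove]
        have e3 : Fin.tail ((MeasurableEquiv.piFinSuccAbove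
          (fun _ : Fin (k + 1) => Fin n → ℂ) 0).symm (x, X')) = X' := by
          funext i
          simp [MeasurableEquiv.piFinSuccAbove, Fin.tail]
        rw [e2, e3]
      simp_rw [e1]
      refine (row_step _ s h0 h1).trans (le_of_eq ?_)
      have e4 : ∑ S : Finset (Fin n), ∑ j, ‖(if j ∈ S then
            z ^ (S.filter fun s => s < j).card * P z X' (S.erase j) else 0 : ℂ)‖ ^ 2 =
          ((n : ℝ) - k) * V z X' := by
        rw [← sum_coef z hz X']
        refine sum_congr rfl fun S _ => ?_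
        have : ∀ j, ‖(if j ∈ S then
            z ^ (S.filter fun s => s < j).card * P z X' (S.erase j) else 0 : ℂ)‖ ^ 2 =
            if j ∈ S then ‖z ^ (S.filter fun s => s < j).card * P z X' (S.erase j)‖ ^ 2 else 0 := by
          intro j
          split_ifs <;> simp
        simp_rw [this]
        rw [← sum_filter, filter_mem_eq_inter, univ_inter]
      rw [e4, np_mul hnk h0 (V_nonneg _ _), mul_assoc]
    refine (lintegral_mono key).trans ?_
    have h8 : Measurable fun X : Fin k → Fin n → ℂ => np s (V z X) :=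
      (measurable_np s).comp (continuous_V z).measurable
    rw [lintegral_const_mul _ h8, mul_comm]
    gcongr

/-- Negative moments of the `z`-permanent. -/
lemma moment_full (z : ℂ) (hz : ‖z‖ = 1) (n : ℕ) (s : ℝ) (h0 : 0 < s) (h1 : s < 1) :
    ∫⁻ X, np s (‖zPer z X‖ ^ 2) ∂(rows n n) ≤
      ENNReal.ofReal (Real.Gamma (1 - s) ^ n * ((n.factorial : ℝ)) ^ (-s)) := by
  have h := moment z hz n s h0 h1 n le_rfl
  simp_rw [V_full] at h
  refine h.trans (le_of_eq ?_)
  have hG : 0 < Real.Gamma (1 - s) := Real.Gamma_pos_of_pos (by linarith)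
  have h2 : ∀ i ∈ range n, ENNReal.ofReal (Real.Gamma (1 - s)) *
      ENNReal.ofReal (((n : ℝ) - i) ^ (-s)) =
      ENNReal.ofReal (Real.Gamma (1 - s) * (((n : ℝ) - i) ^ (-s))) := by
    intro i hi
    rw [ENNReal.ofReal_mul hG.le]
  rw [prod_congr rfl h2, ← ENNReal.ofReal_prod_of_nonneg]
  · congr 1
    rw [prod_mul_distrib, prod_const, card_range]
    congr 1
    rw [Real.finsetProd_rpow]
    · congr 1
      rw [← prod_range_reflect, Nat.factorial_eq_prod_range_add_one]
      push_cast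
      refine prod_congr rfl fun i hi => ?_
      have : i < n := mem_range.1 hi
      rw [Nat.cast_sub (by omega), Nat.cast_sub (by omega)]
      push_cast
      ring
    · intro i hi
      have : (i : ℝ) < n := by exact_mod_cast mem_range.1 hi
      linarith
  · intro i hi
    have : (i : ℝ) < n := by exact_mod_cast mem_range.1 hi
    have : 0 < ((n : ℝ) - i) ^ (-s) := Real.rpow_pos_of_pos (by linarith) _
    positivity

/-- Small ball estimate. -/
lemma small_ball (z : ℂ) (hz : ‖z‖ = 1) (n : ℕ) (s : ℝ) (h0 : 0 < s) (h1 : s < 1) (θ : ℝ)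
    (hθ : 0 < θ) :
    rows n n {X | ‖zPer z X‖ ^ 2 < θ} ≤
      ENNReal.ofReal (θ ^ s * (Real.Gamma (1 - s) ^ n * ((n.factorial : ℝ)) ^ (-s))) := by
  have hm : Measurable fun X : Fin n → Fin n → ℂ => np s (‖zPer z X‖ ^ 2) := by
    have : (fun X : Fin n → Fin n → ℂ => np s (‖zPer z X‖ ^ 2)) = fun X => np s (V z X) := by
      funext X; rw [V_full]
    rw [this]
    exact (measurable_np s).comp (continuous_V z).measurable
  have h2 := mul_meas_ge_le_lintegral₀ (μ := rows n n) hm.aemeasurable (np s θ)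
  have h3 := h2.trans (moment_full z hz n s h0 h1)
  have hsub : {X : Fin n → Fin n → ℂ | ‖zPer z X‖ ^ 2 < θ} ⊆
      {X | np s θ ≤ np s (‖zPer z X‖ ^ 2)} := by
    intro X hX
    have hX' : ‖zPer z X‖ ^ 2 < θ := hX
    change np s θ ≤ np s (‖zPer z X‖ ^ 2)
    unfold np
    gcongr
  have h4 : np s θ * rows n n {X | ‖zPer z X‖ ^ 2 < θ} ≤
      ENNReal.ofReal (Real.Gamma (1 - s) ^ n * ((n.factorial : ℝ)) ^ (-s)) :=
    (mul_le_mul_right (measure_mono hsub) _).trans h3
  have h5 : ENNReal.ofReal (θ ^ s) * np s θ = 1 := by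
    rw [np_of_pos hθ, ← ENNReal.ofReal_mul (by positivity), ← Real.rpow_add hθ]
    simp
  calc rows n n {X | ‖zPer z X‖ ^ 2 < θ}
      = ENNReal.ofReal (θ ^ s) * (np s θ * rows n n {X | ‖zPer z X‖ ^ 2 < θ}) := by
        rw [← mul_assoc, h5, one_mul]
    _ ≤ ENNReal.ofReal (θ ^ s) *
        ENNReal.ofReal (Real.Gamma (1 - s) ^ n * ((n.factorial : ℝ)) ^ (-s)) := by gcongr
    _ = _ := by rw [← ENNReal.ofReal_mul (by positivity)]

end Pool.Agent.Seat79.ZPerm
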