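import Pool.Agent.Seat79.CGauss

open MeasureTheory ProbabilityTheory Finset
open scoped ENNReal NNReal

namespace Pool.Agent.Seat79.ZPerm

/-! ### Combinatorics -/

/-- inversion number of a function -/
def inv {k n : ℕ} (f : Fin k → Fin n) : ℕ :=
  (univ.filter fun p : Fin k × Fin k => p.1 < p.2 ∧ f p.2 < f p.1).card

open Classical in
/-- the `z`-permanent of the rows of `X` and the columns in `S` -/
noncomputable def P (z : ℂ) {k n : ℕ} (X : Fin k → Fin n → ℂ) (S : Finset (Fin n)) : ℂ :=
  ∑ f : Fin k → Fin n, if Function.Injective f ∧ univ.image f = S then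
    z ^ inv f * ∏ i, X i (f i) else 0

lemma inv_cons {k n : ℕ} (j : Fin n) (g : Fin k → Fin n) :
    inv (Fin.cons j g : Fin (k + 1) → Fin n) = (univ.filter fun i => g i < j).card + inv g := by
  unfold inv
  rw [card_filter, card_filter, card_filter]
  rw [Fintype.sum_prod_type, Fintype.sum_prod_type, Fin.sum_univ_succ]
  congr 1
  · rw [Fin.sum_univ_succ]
    simp
  · refine sum_congr rfl fun i _ => ?_
    rw [Fin.sum_univ_succ]
    simp

lemma cond_cons {k n : ℕ} (j : Fin n) (g : Fin k → Fin n) (S : Finset (Fin n)) :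
    (Function.Injective (Fin.cons j g : Fin (k + 1) → Fin n) ∧
      univ.image (Fin.cons j g : Fin (k + 1) → Fin n) = S) ↔
    (j ∈ S ∧ Function.Injective g ∧ univ.image g = S.erase j) := by
  have himg : univ.image (Fin.cons j g : Fin (k + 1) → Fin n) = insert j (univ.image g) := by
    ext x
    simp only [mem_image, mem_univ, true_and, mem_insert, Fin.exists_fin_succ, Fin.cons_zero,
      Fin.cons_succ]
    constructor
    · rintro (h | h)
      · exact Or.inl h.symm
      · exact Or.inr h
    · rintro (h | h)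
      · exact Or.inl h.symm
      · exact Or.inr h
  rw [himg, Fin.cons_injective_iff]
  constructor
  · rintro ⟨⟨h1, h2⟩, rfl⟩
    refine ⟨mem_insert_self _ _, h2, ?_⟩
    rw [erase_insert]
    simpa using h1
  · rintro ⟨h1, h2, h3⟩
    refine ⟨⟨?_, h2⟩, ?_⟩
    · intro h
      have : j ∈ univ.image g := by simpa using h
      rw [h3] at this
      simp at this
    · rw [h3, insert_erase h1]

lemma P_succ (z : ℂ) {k n : ℕ} (X : Fin (k + 1) → Fin n → ℂ) (S : Finset (Fin n)) :
    P z X S = ∑ j ∈ S, (z ^ (S.filter fun s => s < j).card * P z (Fin.tail X) (S.erase j)) *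
      X 0 j := by
  classical
  unfold P
  rw [← (Fin.consEquiv (fun _ : Fin (k + 1) => Fin n)).sum_comp, Fintype.sum_prod_type]
  have he : ∀ (j : Fin n) (g : Fin k → Fin n),
      (Fin.consEquiv (fun _ : Fin (k + 1) => Fin n)) (j, g) = Fin.cons j g := fun _ _ => rfl
  rw [← Finset.sum_subset (Finset.subset_univ S)]
  · refine sum_congr rfl fun j hj => ?_
    rw [mul_sum, sum_mul]
    refine sum_congr rfl fun g _ => ?_
    simp only [he]
    by_cases h : Function.Injective g ∧ univ.image g = S.erase j
    · rw [if_pos ((cond_cons j g S).2 ⟨hj, h⟩), if_pos h, inv_cons, pow_add,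
        Fin.prod_univ_succ]
      simp only [Fin.cons_zero, Fin.cons_succ, Fin.tail]
      have h5 : (univ.filter fun i => g i < j).card = (S.filter fun s => s < j).card := by
        have h6 : (S.filter fun s => s < j) = (univ.filter fun i => g i < j).image g := by
          ext s
          simp only [mem_filter, mem_image, mem_univ, true_and]
          constructor
          · rintro ⟨h7, h8⟩
            have : s ∈ S.erase j := mem_erase.2 ⟨ne_of_lt h8, h7⟩
            rw [← h.2] at this
            obtain ⟨i, -, rfl⟩ := mem_image.1 this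
            exact ⟨i, h8, rfl⟩
          · rintro ⟨i, h7, rfl⟩
            refine ⟨?_, h7⟩
            have : g i ∈ univ.image g := mem_image_of_mem _ (mem_univ _)
            rw [h.2] at this
            exact (mem_erase.1 this).2
        rw [h6, card_image_of_injective _ h.1]
      rw [h5]
      ring
    · rw [if_neg (fun h' => h ((cond_cons j g S).1 h').2), if_neg h]
      simp
  · intro j _ hj
    refine sum_eq_zero fun g _ => ?_
    simp only [he]
    rw [if_neg]
    intro h
    exact hj ((cond_cons j g S).1 h).1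

lemma P_eq_zero (z : ℂ) {k n : ℕ} (X : Fin k → Fin n → ℂ) (S : Finset (Fin n)) (h : S.card ≠ k) :
    P z X S = 0 := by
  classical
  unfold P
  refine sum_eq_zero fun f _ => if_neg ?_
  rintro ⟨h1, h2⟩
  apply h
  rw [← h2, card_image_of_injective _ h1]
  simp

/-- inversion number of a permutation -/
def inversions {n : ℕ} (σ : Equiv.Perm (Fin n)) : ℕ :=
  (univ.filter fun p : Fin n × Fin n => p.1 < p.2 ∧ σ p.2 < σ p.1).card

/-- the `z`-permanent -/
noncomputable def zPer {n : ℕ} (z : ℂ) (X : Fin n → Fin n → ℂ) : ℂ :=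
  ∑ σ : Equiv.Perm (Fin n), z ^ inversions σ * ∏ i, X i (σ i)

lemma P_univ (z : ℂ) {n : ℕ} (X : Fin n → Fin n → ℂ) : P z X univ = zPer z X := by
  classical
  unfold P zPer
  rw [← sum_filter]
  symm
  refine sum_bij (fun σ _ => (σ : Fin n → Fin n)) ?_ ?_ ?_ ?_
  · intro σ _
    simp only [mem_filter, mem_univ, true_and]
    exact ⟨σ.injective, image_univ_of_surjective σ.surjective⟩
  · intro σ _ τ _ h
    exact Equiv.coe_fn_injective h
  · intro f hf
    simp only [mem_filter, mem_univ, true_and] at hf
    exact ⟨Equiv.ofBijective f ⟨hf.1, Finite.surjective_of_injective hf.1⟩, mem_univ _, rfl⟩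
  · intro σ _
    rfl

/-! ### The quadratic form -/

/-- sum of the squared moduli of all maximal `z`-minors -/
noncomputable def V (z : ℂ) {k n : ℕ} (X : Fin k → Fin n → ℂ) : ℝ := ∑ S, ‖P z X S‖ ^ 2

lemma V_nonneg (z : ℂ) {k n : ℕ} (X : Fin k → Fin n → ℂ) : 0 ≤ V z X :=
  sum_nonneg fun _ _ => by positivity

lemma V_full (z : ℂ) {n : ℕ} (X : Fin n → Fin n → ℂ) : V z X = ‖zPer z X‖ ^ 2 := by
  unfold V
  rw [sum_eq_single univ, P_univ]
  · intro S _ hS
    rw [P_eq_zero z X S, norm_zero]
    · norm_num
    · intro h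
      apply hS
      exact (card_eq_iff_eq_univ S).1 (by rw [h, Fintype.card_fin])
  · intro h; exact absurd (mem_univ _) h

lemma V_zero (z : ℂ) {n : ℕ} (X : Fin 0 → Fin n → ℂ) : V z X = 1 := by
  classical
  unfold V
  rw [sum_eq_single ∅]
  · unfold P
    rw [Fintype.sum_unique]
    rw [if_pos]
    · simp [inv]
    · constructor
      · exact Function.injective_of_subsingleton _
      · simp
  · intro S _ hS
    rw [P_eq_zero z X S, norm_zero]
    · norm_num
    · intro h; exact hS (card_eq_zero.1 h)
  · intro h; exact absurd (mem_univ _) h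

lemma sum_coef (z : ℂ) (hz : ‖z‖ = 1) {k n : ℕ} (X : Fin k → Fin n → ℂ) :
    ∑ S : Finset (Fin n), ∑ j ∈ S,
      ‖z ^ (S.filter fun s => s < j).card * P z X (S.erase j)‖ ^ 2 = ((n : ℝ) - k) * V z X := by
  classical
  have h1 : ∀ S : Finset (Fin n), ∑ j ∈ S,
      ‖z ^ (S.filter fun s => s < j).card * P z X (S.erase j)‖ ^ 2 =
      ∑ j : Fin n, if j ∈ S then ‖P z X (S.erase j)‖ ^ 2 else 0 := by
    intro S
    rw [← sum_filter]
    rw [filter_mem_eq_inter, univ_inter]
    refine sum_congr rfl fun j _ => ?_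
    rw [norm_mul, norm_pow, hz, one_pow, one_mul]
  simp_rw [h1]
  rw [sum_comm]
  have h2 : ∀ j : Fin n, (∑ S : Finset (Fin n), if j ∈ S then ‖P z X (S.erase j)‖ ^ 2 else 0) =
      ∑ S : Finset (Fin n), if j ∉ S then ‖P z X S‖ ^ 2 else 0 := by
    intro j
    rw [← sum_filter, ← sum_filter]
    refine sum_bij' (fun S _ => S.erase j) (fun S _ => insert j S) ?_ ?_ ?_ ?_ ?_
    · intro S hS; simp
    · intro S hS; simp
    · intro S hS
      simp only [mem_filter, mem_univ, true_and] at hS
      exact insert_erase hS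
    · intro S hS
      simp only [mem_filter, mem_univ, true_and] at hS
      exact erase_insert hS
    · intro S hS; rfl
  simp_rw [h2]
  rw [sum_comm]
  unfold V
  rw [mul_sum]
  refine sum_congr rfl fun S _ => ?_
  rw [← sum_filter, sum_const, nsmul_eq_mul]
  by_cases h : S.card = k
  · congr 1
    have : (univ.filter fun j => j ∉ S) = Sᶜ := by ext; simp
    rw [this, card_compl, Fintype.card_fin, h, Nat.cast_sub]
    rw [← h]
    exact (card_le_univ S).trans (by simp)
  · rw [P_eq_zero z X S h]
    simp

end Pool.Agent.Seat79.ZPerm
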